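import Pool.Agent.Q292.Sorted.Tie
import Mathlib.Order.Partition.Finpartition
import Mathlib.Data.Real.Basic
import Mathlib.Algebra.Order.Monoid.WithTop
import Mathlib.Tactic

set_option autoImplicit false

/-!
# MP_e22fa6_co: sorted optimal structures with at most two coalitions for the average cost

In both settings (HIS and UIS) every instance has an optimal coalition structure with at most two
coalitions that is sorted.
-/

namespace Pool.Agent.Results.MP_e22fa6_co.SortedOptimum

open Finset Pool.Agent.Q292.Sorted

variable {n : ℕ}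

/-- The average distance of agent `i` to the other members of the coalition `C`. -/
noncomputable def averageDistance (v : Fin n → ℝ) (C : Finset (Fin n)) (i : Fin n) : ℝ :=
  (∑ j ∈ C.erase i, |v i - v j|) / ((C.card : ℝ) - 1)

/-- The two settings, which differ in the cost of an agent that is alone. -/
inductive Setting
  /-- an agent that is alone has cost `0` -/
  | HIS
  /-- an agent that is alone has cost `+∞` -/
  | UIS

/-- The cost of being alone. -/
noncomputable def aloneCost : Setting → WithTop ℝ
  | .HIS => 0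
  | .UIS => ⊤

/-- The cost of agent `i` in the coalition `C`. -/
noncomputable def cost (σ : Setting) (v : Fin n → ℝ) (C : Finset (Fin n)) (i : Fin n) :
    WithTop ℝ :=
  if 2 ≤ C.card then ((averageDistance v C i : ℝ) : WithTop ℝ) else aloneCost σ

/-- The social cost of a coalition structure, that is, of a partition of the set of agents into
nonempty coalitions; `P.part i` is the coalition of agent `i`. -/
noncomputable def socialCost (σ : Setting) (v : Fin n → ℝ)
    (P : Finpartition (univ : Finset (Fin n))) : WithTop ℝ :=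
  ∑ i, cost σ v (P.part i) i

/-- A coalition structure is sorted if every coalition contains each agent whose value lies
between the values of two members. -/
def IsSorted (v : Fin n → ℝ) (P : Finpartition (univ : Finset (Fin n))) : Prop :=
  ∀ C ∈ P.parts, ∀ i ∈ C, ∀ j ∈ C, ∀ l, min (v i) (v j) ≤ v l → v l ≤ max (v i) (v j) → l ∈ C

/-! ### Sums of distances -/

/-- The gaps between consecutive values. -/
noncomputable def gap (v : Fin n → ℝ) (t : ℕ) : ℝ :=
  if h : 1 ≤ t ∧ t < n then v ⟨t, h.2⟩ - v ⟨t - 1, by omega⟩ else 0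

lemma gap_nonneg {v : Fin n → ℝ} (hv : Monotone v) (t : ℕ) : 0 ≤ gap v t := by
  unfold gap
  split_ifs with h
  · rw [sub_nonneg]
    apply hv
    rw [Fin.mk_le_mk]
    omega
  · exact le_rfl

/-- indicator -/
def ind (t i : ℕ) : ℝ := if i < t then 1 else 0

lemma sub_eq (v : Fin n → ℝ) (i : ℕ) (hi : i < n) (j : ℕ) (hj : j < n) (hij : i ≤ j) :
    v ⟨j, hj⟩ - v ⟨i, hi⟩ = ∑ t ∈ Ico 1 n, gap v t * (ind t i * (1 - ind t j)) := by
  induction j, hij using Nat.le_induction with
  | base =>
    rw [sub_self]
    symm
    apply Finset.sum_eq_zero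
    intro t _
    unfold ind
    split_ifs <;> simp
  | succ j hij ih =>
    have h1 := ih (by omega)
    have h2 : ∑ t ∈ Ico 1 n, gap v t * (ind t i * (1 - ind t (j + 1))) =
        ∑ t ∈ Ico 1 n, (gap v t * (ind t i * (1 - ind t j)) + if t = j + 1 then gap v t else 0) := by
      apply Finset.sum_congr rfl
      intro t _
      unfold ind
      rcases Nat.lt_trichotomy t (j + 1) with h | h | h
      · rw [if_neg (by omega : ¬ j + 1 < t), if_neg (by omega : ¬ j < t),
          if_neg (by omega : ¬ t = j + 1)]
        ring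
      · subst h
        rw [if_neg (by omega : ¬ j + 1 < j + 1), if_pos (by omega : j < j + 1),
          if_pos (by omega : i < j + 1), if_pos rfl]
        ring
      · rw [if_pos h, if_pos (by omega : j < t), if_neg (by omega : ¬ t = j + 1)]
        ring
    rw [h2, Finset.sum_add_distrib, ← h1, Finset.sum_ite_eq' (Ico 1 n) (j + 1),
      if_pos (by rw [Finset.mem_Ico]; omega)]
    have : gap v (j + 1) = v ⟨j + 1, hj⟩ - v ⟨j, by omega⟩ := by
      unfold gap
      rw [dif_pos ⟨by omega, hj⟩]
      rfl
    rw [this]
    ring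

lemma abs_eq {v : Fin n → ℝ} (hv : Monotone v) (i j : Fin n) :
    |v i - v j| = ∑ t ∈ Ico 1 n, gap v t *
      (ind t i * (1 - ind t j) + ind t j * (1 - ind t i)) := by
  have key : ∀ i j : Fin n, i ≤ j → |v i - v j| = ∑ t ∈ Ico 1 n, gap v t *
      (ind t i * (1 - ind t j) + ind t j * (1 - ind t i)) := by
    intro i j hij
    rw [abs_sub_comm, abs_of_nonneg (sub_nonneg.mpr (hv hij))]
    have h1 := sub_eq v i i.2 j j.2 hij
    simp only [Fin.eta] at h1
    rw [h1]
    apply Finset.sum_congr rfl
    intro t _
    have : ind t j * (1 - ind t i) = 0 := by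
      unfold ind
      have : (i : ℕ) ≤ j := hij
      split_ifs <;> first | omega | simp
    rw [this, add_zero]
  rcases le_total i j with h | h
  · exact key i j h
  · rw [abs_sub_comm, key j i h]
    apply Finset.sum_congr rfl
    intro t _
    ring

/-- the number of members of `A` among the first `t` agents -/
def cnt (A : Finset (Fin n)) (t : ℕ) : ℕ := (A.filter fun i : Fin n => (i : ℕ) < t).card

lemma sum_ind (A : Finset (Fin n)) (t : ℕ) : ∑ i ∈ A, ind t i = cnt A t := by
  unfold ind cnt
  rw [Finset.sum_boole]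

lemma sum_abs {v : Fin n → ℝ} (hv : Monotone v) (A : Finset (Fin n)) :
    ∑ i ∈ A, ∑ j ∈ A, |v i - v j| =
      2 * ∑ t ∈ Ico 1 n, gap v t * ((cnt A t : ℝ) * (A.card - cnt A t)) := by
  have h1 : ∀ t, ∑ i ∈ A, ∑ j ∈ A, (ind t i * (1 - ind t j) + ind t j * (1 - ind t i)) =
      2 * ((cnt A t : ℝ) * (A.card - cnt A t)) := by
    intro t
    have e1 : ∑ j ∈ A, (1 - ind t j) = (A.card : ℝ) - cnt A t := by
      rw [Finset.sum_sub_distrib, sum_ind]
      simp
    simp_rw [Finset.sum_add_distrib, ← Finset.mul_sum, ← Finset.sum_mul]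
    rw [e1, sum_ind, ← Finset.mul_sum, e1]
    ring
  simp_rw [abs_eq hv]
  rw [Finset.mul_sum]
  have h2 : ∀ i ∈ A, ∑ j ∈ A, ∑ t ∈ Ico 1 n, gap v t *
      (ind t i * (1 - ind t j) + ind t j * (1 - ind t i)) =
      ∑ t ∈ Ico 1 n, ∑ j ∈ A, gap v t *
      (ind t i * (1 - ind t j) + ind t j * (1 - ind t i)) := fun i _ => Finset.sum_comm
  rw [Finset.sum_congr rfl h2, Finset.sum_comm]
  apply Finset.sum_congr rfl
  intro t _
  simp_rw [← Finset.mul_sum]
  rw [h1]
  ring

lemma sum_averageDistance {v : Fin n → ℝ} (hv : Monotone v) (A : Finset (Fin n)) :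
    ∑ i ∈ A, averageDistance v A i =
      2 * ∑ t ∈ Ico 1 n, gap v t * gg (cnt A t) A.card := by
  unfold averageDistance
  rw [← Finset.sum_div]
  have h1 : ∀ i ∈ A, ∑ j ∈ A.erase i, |v i - v j| = ∑ j ∈ A, |v i - v j| := by
    intro i hi
    rw [← Finset.add_sum_erase A _ hi]
    simp
  rw [Finset.sum_congr rfl h1, sum_abs hv, mul_div_assoc, Finset.sum_div]
  congr 1
  apply Finset.sum_congr rfl
  intro t _
  unfold gg
  ring

/-- the cost of one coalition -/
lemma sum_cost (σ : Setting) {v : Fin n → ℝ} (hv : Monotone v) (A : Finset (Fin n))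
    (h : σ = .HIS ∨ A.card ≠ 1) :
    ∑ i ∈ A, cost σ v A i =
      ((2 * ∑ t ∈ Ico 1 n, gap v t * gg (cnt A t) A.card : ℝ) : WithTop ℝ) := by
  rcases Nat.lt_or_ge A.card 2 with h2 | h2
  · rcases Nat.eq_zero_or_pos A.card with h0 | h0
    · rw [Finset.card_eq_zero] at h0
      subst h0
      unfold cnt
      simp [gg]
    · have h1 : A.card = 1 := by omega
      rcases h with h | h
      · subst h
        unfold cost
        simp only [if_neg (by omega : ¬ 2 ≤ A.card), aloneCost, Finset.sum_const_zero]
        rw [h1]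
        simp [gg]
      · exact absurd h1 h
  · unfold cost
    simp only [if_pos h2]
    rw [← sum_averageDistance hv, WithTop.coe_sum]

lemma sum_cost_top {v : Fin n → ℝ} (A : Finset (Fin n)) (h : A.card = 1) :
    ∑ i ∈ A, cost .UIS v A i = ⊤ := by
  obtain ⟨i, rfl⟩ := Finset.card_eq_one.mp h
  rw [Finset.sum_singleton]
  unfold cost
  rw [if_neg (by simp)]
  rfl

/-! ### Structures with at most two coalitions -/

lemma exists_set (hn : 0 < n) (P : Finpartition (univ : Finset (Fin n)))
    (hP : P.parts.card ≤ 2) :
    ∃ A : Finset (Fin n), A.Nonempty ∧ ∀ i, P.part i = if i ∈ A then A else Aᶜ := by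
  have hm : ∀ i, P.part i ∈ P.parts := fun i => P.part_mem.mpr (Finset.mem_univ i)
  have hs : ∀ i, i ∈ P.part i := fun i => P.mem_part_self.mpr (Finset.mem_univ i)
  refine ⟨P.part ⟨0, hn⟩, ⟨_, hs _⟩, ?_⟩
  intro i
  split_ifs with hi
  · exact P.part_eq_of_mem (hm _) hi
  · have hne : P.part ⟨0, hn⟩ ≠ P.part i := by
      intro h
      rw [h] at hi
      exact hi (hs i)
    have hsub : ({P.part ⟨0, hn⟩, P.part i} : Finset (Finset (Fin n))) ⊆ P.parts := by
      intro C hC
      rw [Finset.mem_insert, Finset.mem_singleton] at hC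
      rcases hC with h | h <;> rw [h] <;> exact hm _
    have heq : ({P.part ⟨0, hn⟩, P.part i} : Finset (Finset (Fin n))) = P.parts := by
      apply Finset.eq_of_subset_of_card_le hsub
      rw [Finset.card_pair hne]
      exact hP
    ext j
    rw [Finset.mem_compl]
    constructor
    · intro hj hj0
      apply hne
      rw [← P.part_eq_of_mem (hm _) hj0, ← P.part_eq_of_mem (hm _) hj]
    · intro hj
      have := hm j
      rw [← heq, Finset.mem_insert, Finset.mem_singleton] at this
      rcases this with h | h
      · exfalso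
        apply hj
        rw [← h]
        exact hs j
      · rw [← h]
        exact hs j

lemma exists_partition (A : Finset (Fin n)) (hA : A.Nonempty) :
    ∃ P : Finpartition (univ : Finset (Fin n)), P.parts.card ≤ 2 ∧
      (∀ C ∈ P.parts, C = A ∨ C = Aᶜ) ∧ ∀ i, P.part i = if i ∈ A then A else Aᶜ := by
  have hne : A ≠ Aᶜ := by
    intro h
    obtain ⟨i, hi⟩ := hA
    have : i ∈ Aᶜ := h ▸ hi
    exact (Finset.mem_compl.mp this) hi
  let P : Finpartition (univ : Finset (Fin n)) := Finpartition.ofErase {A, Aᶜ}
    (by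
      rw [Finset.supIndep_pair hne]
      exact disjoint_compl_right)
    (by
      rw [Finset.sup_insert, Finset.sup_singleton]
      exact sup_compl_eq_top)
  have hparts : P.parts = ({A, Aᶜ} : Finset (Finset (Fin n))).erase ⊥ := rfl
  have hpart : ∀ C ∈ P.parts, C = A ∨ C = Aᶜ := by
    intro C hC
    rw [hparts, Finset.mem_erase, Finset.mem_insert, Finset.mem_singleton] at hC
    exact hC.2
  refine ⟨P, ?_, hpart, ?_⟩
  · rw [hparts]
    exact (Finset.card_erase_le).trans (Finset.card_le_two)
  · intro i
    have hm : P.part i ∈ P.parts := P.part_mem.mpr (Finset.mem_univ i)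
    have hs : i ∈ P.part i := P.mem_part_self.mpr (Finset.mem_univ i)
    split_ifs with hi
    · rcases hpart _ hm with h | h
      · exact h
      · rw [h, Finset.mem_compl] at hs
        exact absurd hi hs
    · rcases hpart _ hm with h | h
      · rw [h] at hs
        exact absurd hs hi
      · exact h

lemma socialCost_eq (σ : Setting) (v : Fin n → ℝ) (P : Finpartition (univ : Finset (Fin n)))
    (A : Finset (Fin n)) (h : ∀ i, P.part i = if i ∈ A then A else Aᶜ) :
    socialCost σ v P = ∑ i ∈ A, cost σ v A i + ∑ i ∈ Aᶜ, cost σ v Aᶜ i := by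
  unfold socialCost
  rw [← Finset.sum_add_sum_compl A]
  congr 1
  · apply Finset.sum_congr rfl
    intro i hi
    rw [h i, if_pos hi]
  · apply Finset.sum_congr rfl
    intro i hi
    rw [h i, if_neg (Finset.mem_compl.mp hi)]

/-! ### Paths and cuts -/

lemma cnt_isPath (A : Finset (Fin n)) : IsPath A.card Aᶜ.card (cnt A) := by
  have hcard : A.card + Aᶜ.card = n := by
    rw [Finset.card_add_card_compl, Fintype.card_fin]
  constructor
  · unfold cnt
    simp
  · rw [hcard]
    unfold cnt
    rw [Finset.filter_true_of_mem (fun i _ => i.2)]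
  · intro t ht
    rw [hcard] at ht
    unfold cnt
    by_cases htA : (⟨t, ht⟩ : Fin n) ∈ A
    · right
      have : (A.filter fun i : Fin n => (i : ℕ) < t + 1) =
          insert ⟨t, ht⟩ (A.filter fun i : Fin n => (i : ℕ) < t) := by
        ext i
        simp only [Finset.mem_filter, Finset.mem_insert, Fin.ext_iff]
        constructor
        · rintro ⟨h1, h2⟩
          by_cases h3 : (i : ℕ) = t
          · exact Or.inl h3
          · exact Or.inr ⟨h1, by omega⟩
        · rintro (h | ⟨h1, h2⟩)
          · have : i = ⟨t, ht⟩ := Fin.ext h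
            rw [this]
            exact ⟨htA, Nat.lt_succ_self t⟩
          · exact ⟨h1, by omega⟩
      rw [this, Finset.card_insert_of_notMem (by simp)]
    · left
      congr 1
      ext i
      simp only [Finset.mem_filter]
      constructor
      · rintro ⟨h1, h2⟩
        refine ⟨h1, ?_⟩
        have : (i : ℕ) ≠ t := by
          intro h
          apply htA
          have : i = ⟨t, ht⟩ := Fin.ext h
          rw [← this]
          exact h1
        omega
      · rintro ⟨h1, h2⟩
        exact ⟨h1, by omega⟩

lemma cnt_compl (A : Finset (Fin n)) (t : ℕ) (ht : t ≤ n) :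
    (cnt Aᶜ t : ℝ) = (t : ℝ) - cnt A t := by
  have h1 : cnt A t + cnt Aᶜ t = t := by
    unfold cnt
    rw [← Finset.card_union_of_disjoint, ← Finset.filter_union, Finset.union_compl]
    · have : (univ.filter fun i : Fin n => (i : ℕ) < t).card = t := by
        rw [Fin.card_filter_val_lt]
        omega
      exact this
    · exact Finset.disjoint_filter_filter (disjoint_compl_right)
  have : (cnt A t : ℝ) + cnt Aᶜ t = t := by exact_mod_cast h1
  linarith

/-- the social cost of a structure as a weighted sum of path costs -/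
lemma total_eq (σ : Setting) {v : Fin n → ℝ} (hv : Monotone v) (A : Finset (Fin n))
    (h : σ = .HIS ∨ (A.card ≠ 1 ∧ Aᶜ.card ≠ 1)) :
    ∑ i ∈ A, cost σ v A i + ∑ i ∈ Aᶜ, cost σ v Aᶜ i =
      ((2 * ∑ t ∈ Ico 1 n, gap v t * cP A.card Aᶜ.card (cnt A) t : ℝ) : WithTop ℝ) := by
  rw [sum_cost σ hv A (h.imp id And.left), sum_cost σ hv Aᶜ (h.imp id And.right),
    ← WithTop.coe_add, ← mul_add, ← Finset.sum_add_distrib]
  congr 2
  apply Finset.sum_congr rfl
  intro t ht
  rw [Finset.mem_Ico] at ht
  unfold cP
  rw [cnt_compl A t ht.2.le]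
  ring

/-- the first `s` agents -/
def cut (n s : ℕ) : Finset (Fin n) := univ.filter fun i : Fin n => (i : ℕ) < s

lemma card_cut {s : ℕ} (hs : s ≤ n) : (cut n s).card = s := by
  unfold cut
  rw [Fin.card_filter_val_lt]
  omega

lemma card_cut_compl {s : ℕ} (hs : s ≤ n) : (cut n s)ᶜ.card = n - s := by
  rw [Finset.card_compl, card_cut hs, Fintype.card_fin]

lemma cnt_cut {s : ℕ} (hs : s ≤ n) (t : ℕ) : cnt (cut n s) t = min s t := by
  have : cnt (cut n s) t = (cut n (min s t)).card := by
    unfold cnt cut
    rw [Finset.filter_filter]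
    congr 1
    ext i
    simp only [Finset.mem_filter, Finset.mem_univ, true_and]
    omega
  rw [this, card_cut (by omega)]

lemma cut_cP {s : ℕ} (hs : s ≤ n) (t : ℕ) :
    cP (cut n s).card (cut n s)ᶜ.card (cnt (cut n s)) t = cc n s t := by
  unfold cP
  rw [card_cut hs, card_cut_compl hs, cnt_cut hs, Nat.cast_sub hs]
  rcases le_total t s with h | h
  · rw [cc_of_le h, min_eq_right h, sub_self, gg_zero, add_zero]
  · rw [cc_of_ge h, min_eq_left h, gg_self, zero_add]
    rw [← gg_symm]
    congr 1
    ring

/-- the structures `{A, Aᶜ}` compared with cuts -/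
lemma main_bound (σ : Setting) {v : Fin n → ℝ} (hv : Monotone v) (A : Finset (Fin n))
    (m : ℝ) (hm : ∀ s, (s = 0 ∨ ((σ = .HIS ∨ (2 ≤ s ∧ s + 2 ≤ n)) ∧ s < n)) →
      m ≤ K n (gap v) s) :
    ((2 * m : ℝ) : WithTop ℝ) ≤ ∑ i ∈ A, cost σ v A i + ∑ i ∈ Aᶜ, cost σ v Aᶜ i := by
  have hcard : A.card + Aᶜ.card = n := by
    rw [Finset.card_add_card_compl, Fintype.card_fin]
  by_cases h : σ = .HIS ∨ (A.card ≠ 1 ∧ Aᶜ.card ≠ 1)
  · rw [total_eq σ hv A h, WithTop.coe_le_coe]
    have hmain : m ≤ ∑ t ∈ Ico 1 n, gap v t * cP A.card Aᶜ.card (cnt A) t := by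
      rcases Nat.eq_zero_or_pos A.card with ha | ha
      · -- the empty set
        have hb : Aᶜ.card = n := by omega
        have e : ∑ t ∈ Ico 1 n, gap v t * cP A.card Aᶜ.card (cnt A) t = K n (gap v) 0 := by
          unfold K
          apply Finset.sum_congr rfl
          intro t ht
          rw [Finset.mem_Ico] at ht
          rw [cc_zero n t ht.1]
          unfold cP
          have h0 : cnt A t = 0 := by
            rw [Finset.card_eq_zero] at ha
            rw [ha]
            rfl
          rw [h0, hb]
          simp [gg_zero]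
        rw [e]
        exact hm 0 (Or.inl rfl)
      · rcases Nat.eq_zero_or_pos Aᶜ.card with hb | hb
        · have hb' : A.card = n := by omega
          have e : ∑ t ∈ Ico 1 n, gap v t * cP A.card Aᶜ.card (cnt A) t = K n (gap v) 0 := by
            unfold K
            apply Finset.sum_congr rfl
            intro t ht
            rw [Finset.mem_Ico] at ht
            rw [cc_zero n t ht.1]
            unfold cP
            have h0 : (t : ℝ) - cnt A t = 0 := by
              rw [← cnt_compl A t ht.2.le]
              rw [Finset.card_eq_zero] at hb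
              rw [hb]
              simp [cnt]
            rw [h0, gg_zero, add_zero, hb']
            congr 2
            linarith
          rw [e]
          exact hm 0 (Or.inl rfl)
        · by_cases hσ : σ = .HIS
          · have := compare (Ico 1 (A.card + Aᶜ.card)) (gap v) (gap_nonneg hv) (cnt_isPath A) ha hb
              (Or.inl rfl) m (by rw [hcard]; exact hm 0 (Or.inl rfl)) (by
                intro s hs
                rw [Finset.mem_Ico, hcard] at hs
                rw [hcard]
                exact hm s (Or.inr ⟨Or.inl hσ, hs.2⟩))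
            rw [hcard] at this
            exact this
          · obtain ⟨h1, h2⟩ := h.resolve_left hσ
            have := compare (Ico 2 (A.card + Aᶜ.card - 1)) (gap v) (gap_nonneg hv) (cnt_isPath A)
              ha hb (Or.inr ⟨by omega, by omega, rfl⟩) m
              (by rw [hcard]; exact hm 0 (Or.inl rfl)) (by
                intro s hs
                rw [Finset.mem_Ico, hcard] at hs
                rw [hcard]
                exact hm s (Or.inr ⟨Or.inr ⟨hs.1, by omega⟩, by omega⟩))
            rw [hcard] at this
            exact this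
    linarith
  · push Not at h
    obtain ⟨h1, h2⟩ := h
    have hU : σ = .UIS := by
      cases σ
      · exact absurd rfl h1
      · rfl
    subst hU
    by_cases hA : A.card = 1
    · rw [sum_cost_top A hA, top_add]
      exact le_top
    · rw [sum_cost_top Aᶜ (h2 hA), add_top]
      exact le_top

/-- the cut `s` (or the grand coalition if `s = 0`) as a coalition structure -/
lemma exists_cut (σ : Setting) {v : Fin n → ℝ} (hv : Monotone v) (hn : 0 < n) (s : ℕ)
    (hs : s = 0 ∨ ((σ = .HIS ∨ (2 ≤ s ∧ s + 2 ≤ n)) ∧ s < n)) (hg : s = 0 ∨ 0 < gap v s)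
    (hσ : σ = .HIS ∨ n ≠ 1) :
    ∃ P : Finpartition (univ : Finset (Fin n)), P.parts.card ≤ 2 ∧ IsSorted v P ∧
      socialCost σ v P = ((2 * K n (gap v) s : ℝ) : WithTop ℝ) := by
  rcases Nat.eq_zero_or_pos s with h0 | h0
  · subst h0
    -- grand coalition
    obtain ⟨P, hP1, hP2, hP3⟩ := exists_partition (cut n n) (by
      rw [← Finset.card_pos, card_cut le_rfl]; exact hn)
    have huniv : cut n n = univ := by
      unfold cut
      ext i
      simp
    refine ⟨P, hP1, ?_, ?_⟩
    · intro C hC i hi j hj l _ _
      rcases hP2 C hC with h | h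
      · rw [h, huniv]
        exact Finset.mem_univ l
      · rw [h, huniv, Finset.compl_univ] at hi
        exact absurd hi (Finset.notMem_empty i)
    · rw [socialCost_eq σ v P _ hP3, total_eq σ hv _ (hσ.imp id fun h => by
        rw [card_cut le_rfl, card_cut_compl le_rfl]
        omega)]
      congr 2
      rw [← K_self]
      unfold K
      apply Finset.sum_congr rfl
      intro t ht
      rw [Finset.mem_Ico] at ht
      rw [cut_cP le_rfl t]
  · have hs' := hs.resolve_left (by omega)
    have hg' := hg.resolve_left (by omega)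
    have hsn := hs'.2
    obtain ⟨P, hP1, hP2, hP3⟩ := exists_partition (cut n s) (by
      rw [← Finset.card_pos, card_cut hsn.le]; exact h0)
    refine ⟨P, hP1, ?_, ?_⟩
    · -- sorted
      have hlow : ∀ i : Fin n, (i : ℕ) < s → v i ≤ v ⟨s - 1, by omega⟩ := by
        intro i hi
        apply hv
        rw [Fin.le_def]
        simp only
        omega
      have hhigh : ∀ i : Fin n, s ≤ (i : ℕ) → v ⟨s, hsn⟩ ≤ v i := by
        intro i hi
        apply hv
        rw [Fin.le_def]
        exact hi
      have hlt : v ⟨s - 1, by omega⟩ < v ⟨s, hsn⟩ := by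
        unfold gap at hg'
        rw [dif_pos ⟨h0, hsn⟩] at hg'
        linarith
      intro C hC i hi j hj l hl1 hl2
      rcases hP2 C hC with h | h
      · rw [h] at hi hj ⊢
        unfold cut at hi hj ⊢
        simp only [Finset.mem_filter, Finset.mem_univ, true_and] at hi hj ⊢
        by_contra hcon
        push Not at hcon
        have h1 := hhigh l hcon
        have h2 := max_le (hlow i hi) (hlow j hj)
        linarith
      · rw [h] at hi hj ⊢
        unfold cut at hi hj ⊢
        simp only [Finset.mem_compl, Finset.mem_filter, Finset.mem_univ, true_and, not_lt]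
          at hi hj ⊢
        by_contra hcon
        push Not at hcon
        have h1 := hlow l hcon
        have h2 := le_min (hhigh i hi) (hhigh j hj)
        linarith
    · rw [socialCost_eq σ v P _ hP3, total_eq σ hv _ (by
        rcases hs'.1 with h | h
        · exact Or.inl h
        · right
          rw [card_cut hsn.le, card_cut_compl hsn.le]
          omega)]
      congr 2
      unfold K
      apply Finset.sum_congr rfl
      intro t ht
      rw [Finset.mem_Ico] at ht
      rw [cut_cP hsn.le t]

/-- **Sorted optima for the average cost.** In both settings, HIS and UIS, every instance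
`v 0 ≤ v 1 ≤ ⋯ ≤ v (n - 1)`, `n ≥ 2`, has a sorted coalition structure with at most two coalitions
whose social cost is minimal among all coalition structures with at most two coalitions. -/
theorem result (n : ℕ) (hn : 2 ≤ n) (v : Fin n → ℝ) (hv : Monotone v) (σ : Setting) :
    ∃ P : Finpartition (univ : Finset (Fin n)), P.parts.card ≤ 2 ∧ IsSorted v P ∧
      ∀ Q : Finpartition (univ : Finset (Fin n)), Q.parts.card ≤ 2 →
        socialCost σ v P ≤ socialCost σ v Q := by
  obtain ⟨s, hs, hg, hmin⟩ : ∃ s, (s = 0 ∨ ((σ = .HIS ∨ (2 ≤ s ∧ s + 2 ≤ n)) ∧ s < n)) ∧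
      (s = 0 ∨ 0 < gap v s) ∧
      ∀ s', (s' = 0 ∨ ((σ = .HIS ∨ (2 ≤ s' ∧ s' + 2 ≤ n)) ∧ s' < n)) →
        K n (gap v) s ≤ K n (gap v) s' := by
    cases σ
    · obtain ⟨s, hs, hg, hmin⟩ := his_cut n (gap v) (gap_nonneg hv) (by omega)
      refine ⟨s, Or.inr ⟨Or.inl rfl, hs⟩, hg, ?_⟩
      rintro s' (h | h)
      · exact hmin s' (by omega)
      · exact hmin s' h.2
    · obtain ⟨s, hs, hg, hmin⟩ := uis_cut n (gap v) (gap_nonneg hv)
      refine ⟨s, ?_, hg, ?_⟩
      · rcases hs with h | h
        · exact Or.inl h
        · exact Or.inr ⟨Or.inr h, by omega⟩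
      · rintro s' (h | ⟨h | h, _⟩)
        · exact hmin s' (Or.inl h)
        · exact absurd h (by simp)
        · exact hmin s' (Or.inr h)
  obtain ⟨P, hP1, hP2, hP3⟩ := exists_cut σ hv (by omega) s hs hg (Or.inr (by omega))
  refine ⟨P, hP1, hP2, ?_⟩
  intro Q hQ
  obtain ⟨A, _, hA⟩ := exists_set (by omega) Q hQ
  rw [hP3, socialCost_eq σ v Q A hA]
  exact main_bound σ hv A _ hmin

end Pool.Agent.Results.MP_e22fa6_co.SortedOptimum
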